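import Pool.Agent.Q297.SelMain

open MeasureTheory TopologicalSpace Q297.Sel

namespace Pool.Agent.Results.MP_eb9ef7_pr.SelectionsConverge

/-- **Weakly convergent random closed sets have weakly convergent selections**, without any
convexity: if `X_n` are almost surely non-empty random closed sets in a separable Banach space and
`X_n → X` weakly with `X` almost surely non-empty, then there are selections `ξ_n` of `X_n` and `ξ`
of `X` with `ξ_n → ξ` in distribution. -/
theorem result {E : Type*} [NormedAddCommGroup E] [NormedSpace ℝ E] [CompleteSpace E]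
    [SeparableSpace E] [MeasurableSpace E] [BorelSpace E]
    {Ω : ℕ → Type*} [∀ n, MeasurableSpace (Ω n)] {P : ∀ n, Measure (Ω n)}
    [∀ n, IsProbabilityMeasure (P n)] {X : ∀ n, Ω n → Set E}
    {Ω' : Type*} [MeasurableSpace Ω'] {P' : Measure Ω'} [IsProbabilityMeasure P']
    {X' : Ω' → Set E}
    (hX : ∀ n, IsRandomClosedSet (X n)) (hne : ∀ n, ∀ᵐ ω ∂(P n), (X n ω).Nonempty)
    (hX' : IsRandomClosedSet X') (hne' : ∀ᵐ ω ∂P', (X' ω).Nonempty)
    (hconv : WeakConvSets P X P' X') :
    ∃ (ξ : ∀ n, Ω n → E) (ξ' : Ω' → E), (∀ n, IsSelection (P n) (X n) (ξ n)) ∧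
      IsSelection P' X' ξ' ∧ WeakConv P ξ P' ξ' :=
  main hX hne hX' hne' hconv

end Pool.Agent.Results.MP_eb9ef7_pr.SelectionsConverge
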